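import Pool.Agent.H24.RCN.Targets

set_option autoImplicit false

open NumberField Pool.Agent.H24.RCN

namespace Pool.Agent.H97.RCN

theorem pf_NTA : T_NTA := by
  intro F _ _ r e d p k κ ζ hD hζ x hx
  obtain ⟨c, t, hct⟩ : ∃ c t : ℕ, κ * c = 1 + d * t := by
    have hcop : Nat.Coprime κ d := (Nat.coprime_primes hD.hκ hD.hd).2 hD.hκd
    obtain ⟨c, hc⟩ := Nat.exists_mul_mod_eq_one_of_coprime hcop hD.hd.one_lt
    refine ⟨c, κ * c / d, ?_⟩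
    have h1 := Nat.mod_add_div (κ * c) d
    rw [hc.2] at h1
    exact h1.symm
  obtain ⟨z, hz⟩ : ∃ z : F, z = (ζ : F) := ⟨_, rfl⟩
  obtain ⟨q, hq⟩ : ∃ q : F, q = ((r ^ e : ℕ) : F) := ⟨_, rfl⟩
  have hqc : (((r ^ e : ℕ) : 𝓞 F) : F) = q := by
    rw [hq]
    exact map_natCast (algebraMap (𝓞 F) F) _
  have hzd : z ^ d = 1 := by
    rw [hz]
    have := congrArg (algebraMap (𝓞 F) F) hζ.pow_eq_one
    rw [map_pow, map_one] at this
    exact this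
  rw [← hq, ← hz] at hx
  have hodd : Odd κ := hD.hκ.odd_of_ne_two hD.hκ2
  obtain ⟨m, hm⟩ : ∃ m, κ = m + 1 := ⟨κ - 1, by have := hD.hκ.pos; omega⟩
  obtain ⟨d', hd'⟩ : ∃ d', d = d' + 1 := ⟨d - 1, by have := hD.hd.pos; omega⟩
  have hy : (-((1 - z ^ (d - 1) * q) * x * z ^ c)) ^ κ =
      (1 - z * q) * (1 - z ^ (d - 1) * q) ^ (κ - 1) := by
    rw [hodd.neg_pow, mul_pow, mul_pow, ← pow_mul, Nat.mul_comm c κ, hct, pow_add, pow_mul, hzd,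
      one_pow, mul_one, pow_one]
    have e1 : (1 - z ^ (d - 1) * q) ^ κ = (1 - z ^ (d - 1) * q) ^ (κ - 1) * (1 - z ^ (d - 1) * q) := by
      rw [hm, Nat.add_sub_cancel, pow_succ]
    have e2 : z ^ (d - 1) * z = 1 := by
      rw [← pow_succ]
      rw [hd', Nat.add_sub_cancel, ← hd', hzd]
    rw [e1]
    calc -((1 - z ^ (d - 1) * q) ^ (κ - 1) * (1 - z ^ (d - 1) * q) * x ^ κ * z)
        = -((1 - z ^ (d - 1) * q) ^ (κ - 1) * (x ^ κ * (1 - z ^ (d - 1) * q)) * z) := by ring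
      _ = (1 - z ^ (d - 1) * q) ^ (κ - 1) * (1 - z * q) * (z ^ (d - 1) * z) := by rw [hx]; ring
      _ = _ := by rw [e2]; ring
  have hz' : algebraMap (𝓞 F) F ζ = z := hz.symm
  have hqc' : algebraMap (𝓞 F) F (((r ^ e : ℕ) : 𝓞 F)) = q := hqc
  have hco : algebraMap (𝓞 F) F ((1 - ζ * ((r ^ e : ℕ) : 𝓞 F)) *
      (1 - ζ ^ (d - 1) * ((r ^ e : ℕ) : 𝓞 F)) ^ (κ - 1)) =
        (1 - z * q) * (1 - z ^ (d - 1) * q) ^ (κ - 1) := by
    rw [map_mul, map_pow, map_sub, map_sub, map_mul, map_mul, map_pow, map_one, hqc', hz']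
  have hint : IsIntegral ℤ (-((1 - z ^ (d - 1) * q) * x * z ^ c)) := by
    refine IsIntegral.of_pow hD.hκ.pos ?_
    rw [hy, ← hco]
    exact RingOfIntegers.isIntegral_coe _
  obtain ⟨A, hA⟩ : ∃ A : 𝓞 F, algebraMap (𝓞 F) F A = -((1 - z ^ (d - 1) * q) * x * z ^ c) :=
    ⟨⟨_, hint⟩, rfl⟩
  refine ⟨A, ?_⟩
  apply IsFractionRing.injective (𝓞 F) F
  rw [hco, ← hy, map_pow, hA]

end Pool.Agent.H97.RCN
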